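import Pool.Agent.Helper66.TU.Defs

/-!
# TU module LOCAL: the local theorem (with the earlier modules as hypotheses)
-/

set_option autoImplicit false

namespace GWA

/-- the numerics of the local theorem -/
theorem local_numerics (q g B Qc N φ : ℕ) (hg : 1 ≤ g) (hQc : Qc = q ^ g) (hB : 8 * g + 2 ≤ B)
    (hq1 : B ^ 4 ≤ q) (h1 : N ≤ 2 * Qc + 1) (h2 : Qc ≤ 2 * N)
    (h3 : N ≤ 3 * q ^ g → N ≤ 2 * B ^ 2 * φ) :
    4 < N ∧ 2 * Qc + 4 * q < q * φ := by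
  have hB10 : 10 ≤ B := by omega
  have hB4 : 10 ^ 4 ≤ B ^ 4 := Nat.pow_le_pow_left hB10 4
  have hq : 10 ^ 4 ≤ q := le_trans hB4 hq1
  have hqQ : q ≤ Qc := by
    rw [hQc]
    calc q = q ^ 1 := (pow_one q).symm
      _ ≤ q ^ g := Nat.pow_le_pow_right (by omega) hg
  have hN : 4 < N := by omega
  refine ⟨hN, ?_⟩
  have h4 : N ≤ 2 * B ^ 2 * φ := h3 (by rw [← hQc]; omega)
  have h5 : Qc ≤ 4 * B ^ 2 * φ := by nlinarith
  have h6 : B ^ 2 * Qc ≤ 4 * q * φ := by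
    calc B ^ 2 * Qc ≤ B ^ 2 * (4 * B ^ 2 * φ) := Nat.mul_le_mul_left _ h5
      _ = 4 * B ^ 4 * φ := by ring
      _ ≤ 4 * q * φ := by
        apply Nat.mul_le_mul_right
        omega
  have h7 : 100 * Qc ≤ B ^ 2 * Qc := by
    apply Nat.mul_le_mul_right
    calc 100 = 10 ^ 2 := by norm_num
      _ ≤ B ^ 2 := Nat.pow_le_pow_left hB10 2
  have h8 : 4 * (q * φ) = 4 * q * φ := by ring
  omega

section LocalAux

variable {K : Type} [NormedField K] [Algebra GaussianInt K] [NeZero (2 : K)] [DecidableEq K]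
  {π : GaussianInt} {k : Type} [Field k] [Algebra GaussianInt k] {r : K → k}
  {A : (d : Kˣ) → E (d : K) → E (d : K) → Prop}

omit [NeZero (2 : K)] [DecidableEq K] in
/-- a prime of large norm does not divide `3` -/
theorem local_not_dvd_three (h : 10 ≤ π.norm.natAbs) : ¬ π ∣ 3 := by
  intro h3
  have h1 : π.norm ∣ (3 : GaussianInt).norm := by
    obtain ⟨c, hc⟩ := h3
    rw [hc, Zsqrtd.norm_mul]
    exact Dvd.intro _ rfl
  have h2 : (3 : GaussianInt).norm = 9 := by decide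
  rw [h2] at h1
  have h3 : π.norm.natAbs ∣ 9 := by
    have := Int.natAbs_dvd_natAbs.2 h1
    exact this
  have := Nat.le_of_dvd (by norm_num) h3
  omega

theorem MSt.local_aux (h : LHU K π)
    (hunit : ∀ (d : Kˣ), ‖(d : K)‖ = 1 → ∀ P Q : E (d : K), A d P Q)
    (heven' : (∀ (d : Kˣ), ‖(d : K)‖ = 1 → ∀ P Q : E (d : K), A d P Q) → ∀ (d : Kˣ) (m : ℤ),
      ‖(d : K)‖ = ‖algebraMap GaussianInt K π‖ ^ (2 * m) → ∀ P Q : E (d : K), A d P Q)
    (hnode : (∀ (d : Kˣ) (m : ℤ), ‖(d : K)‖ = ‖algebraMap GaussianInt K π‖ ^ (2 * m) →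
        ∀ P Q : E (d : K), A d P Q) →
      ∀ (d : Kˣ) {ε ε' : E (d : K)} (_ : ε ∈ nb π (d : K) 0) (_ : ε' ∈ nb π (d : K) 0)
        (κ μ : GaussianInt), A d (κ • T d.ne_zero + ε) (μ • T d.ne_zero + ε')) (d : Kˣ)
    (P Q : E (d : K)) : A d P Q := by
  have heven := heven' hunit
  rcases h.node_or h.odd d P with ⟨κ, hκ⟩ | ⟨_, _, _, _, m, hm⟩
  · rcases h.node_or h.odd d Q with ⟨μ, hμ⟩ | ⟨_, _, _, _, m, hm⟩
    · have h1 := hnode heven d hκ hμ κ μ
      rw [add_sub_cancel, add_sub_cancel] at h1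
      exact h1
    · exact heven d m hm P Q
  · exact heven d m hm P Q

end LocalAux

end GWA
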