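import Pool.Agent.Helper66.TU.Defs

/-!
# TU module UNIV: all pairs are in `A` for unit `d` (with the earlier modules as hypotheses)
-/

set_option autoImplicit false

namespace GWA

section UnivAux

variable {K : Type} [NormedField K] [Algebra GaussianInt K] [NeZero (2 : K)] [DecidableEq K]
  {π : GaussianInt} {k : Type} [Field k] [Algebra GaussianInt k] {r : K → k}
  {A : (d : Kˣ) → E (d : K) → E (d : K) → Prop}

/-- two points of `nb m` with the same digit are close -/
theorem univ_close (h : LHU K π) {d : Kˣ}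
    (hadd : ∀ (m : ℕ) (P Q : E (d : K)), P ∈ nb π (d : K) m → Q ∈ nb π (d : K) m →
      dg r π m (P + Q) = dg r π m P + dg r π m Q)
    (hneg : ∀ (m : ℕ) (P : E (d : K)), P ∈ nb π (d : K) m → dg r π m (-P) = - dg r π m P)
    (hzero : ∀ (m : ℕ) (P : E (d : K)), P ∈ nb π (d : K) m →
      (dg r π m P = 0 ↔ P ∈ nb π (d : K) (m + 1)))
    {m : ℕ} {P Q : E (d : K)} (hP : P ∈ nb π (d : K) m) (hQ : Q ∈ nb π (d : K) m)
    (he : dg r π m P = dg r π m Q) : P - Q ∈ nb π (d : K) (m + 1) := by
  have h1 : P + -Q ∈ nb π (d : K) m := h.nb_add d.ne_zero m hP (neg_mem_nbh hQ)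
  have h2 : dg r π m (P + -Q) = 0 := by
    rw [hadd m P (-Q) hP (neg_mem_nbh hQ), hneg m Q hQ, he, add_neg_cancel]
  rw [sub_eq_add_neg]
  exact (hzero m _ h1).1 h2

theorem MSt.univ_aux (hA : MSt π A) (h : LHU K π) {d : Kˣ} {g : E (d : K)} {n : GaussianInt}
    (hg : Gen π d g n)
    (hadd : ∀ (m : ℕ) (P Q : E (d : K)), P ∈ nb π (d : K) m → Q ∈ nb π (d : K) m →
      dg r π m (P + Q) = dg r π m P + dg r π m Q)
    (hneg : ∀ (m : ℕ) (P : E (d : K)), P ∈ nb π (d : K) m → dg r π m (-P) = - dg r π m P)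
    (hzero : ∀ (m : ℕ) (P : E (d : K)), P ∈ nb π (d : K) m →
      (dg r π m P = 0 ↔ P ∈ nb π (d : K) (m + 1)))
    (hop : ∀ (R ε ε' : E (d : K)), n • R = 0 → ε ∈ nb π (d : K) 0 → ε' ∈ nb π (d : K) 0 →
      A d (R + ε) ε' → ∀ α γ a b c e : GaussianInt,
        A d (α • R + a • ε + b • ε') (γ • R + c • ε + e • ε'))
    (hmove1 : ∀ (ε ε' : E (d : K)), ε ∈ nb π (d : K) 0 → ∀ (l m : ℕ), ε' ∈ nb π (d : K) l →
      ε' ∉ nb π (d : K) (l + 1) → l ≤ m → ∀ c : k, A d (g + ε) ε' →
      ∃ ε₁ ε₁' : E (d : K), A d (g + ε₁) ε₁' ∧ ε₁ - ε ∈ nb π (d : K) m ∧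
        dg r π m (ε₁ - ε) = c ∧ ε₁' - ε' ∈ nb π (d : K) (m + 1))
    (hmove2 : ∀ (ε ε' : E (d : K)) (l m : ℕ), ε ∈ nb π (d : K) l → ε' ∈ nb π (d : K) l →
      (ε ∉ nb π (d : K) (l + 1) ∨ ε' ∉ nb π (d : K) (l + 1)) → l + 1 ≤ m → ∀ c c' : k,
      A d (g + ε) ε' →
      ∃ ε₁ ε₁' : E (d : K), A d (g + ε₁) ε₁' ∧ ε₁ - ε ∈ nb π (d : K) m ∧
        dg r π m (ε₁ - ε) = c ∧ ε₁' - ε' ∈ nb π (d : K) m ∧ dg r π m (ε₁' - ε') = c')
    (P Q : E (d : K)) : A d P Q := by
  have hd := d.ne_zero
  have hanti : ∀ {m m' : ℕ} {R : E (d : K)}, m ≤ m' → R ∈ nb π (d : K) m' → R ∈ nb π (d : K) m :=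
    fun hm hR => nbh_anti h.one_lt_inv.le (d : K) hm hR
  have hsub : ∀ {m : ℕ} {R S : E (d : K)}, R ∈ nb π (d : K) m → S ∈ nb π (d : K) m →
      R - S ∈ nb π (d : K) m := by
    intro m R S hR hS
    rw [sub_eq_add_neg]
    exact h.nb_add hd m hR (neg_mem_nbh hS)
  -- the main claim
  have main : ∀ ε ε' : E (d : K), ε ∈ nb π (d : K) 0 → ε' ∈ nb π (d : K) 0 →
      A d (g + ε) ε' := by
    intro ε ε' hε hε'
    by_cases hz : ε = 0 ∧ ε' = 0
    · rw [hz.1, hz.2]
      exact hA.base d _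
    -- the common level
    have hlev : ∃ l, ε ∈ nb π (d : K) l ∧ ε' ∈ nb π (d : K) l ∧
        (ε ∉ nb π (d : K) (l + 1) ∨ ε' ∉ nb π (d : K) (l + 1)) := by
      by_cases h1 : ε = 0
      · have h2 : ε' ≠ 0 := fun h2 => hz ⟨h1, h2⟩
        obtain ⟨l, _, h3, h4⟩ := h.nb_level hd h2 hε'
        refine ⟨l, ?_, h3, Or.inr h4⟩
        rw [h1]
        exact zero_mem_nbh _ _ _
      · obtain ⟨l, _, h3, h4⟩ := h.nb_level hd h1 hε
        by_cases h2 : ε' = 0
        · refine ⟨l, h3, ?_, Or.inl h4⟩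
          rw [h2]
          exact zero_mem_nbh _ _ _
        · obtain ⟨l', _, h5, h6⟩ := h.nb_level hd h2 hε'
          rcases le_total l l' with hll | hll
          · exact ⟨l, h3, hanti hll h5, Or.inl h4⟩
          · exact ⟨l', hanti hll h3, h5, Or.inr h6⟩
    obtain ⟨l, hl1, hl2, hl3⟩ := hlev
    -- the start
    have start : ∃ s s' : E (d : K), A d (g + s) s' ∧ s - ε ∈ nb π (d : K) (l + 1) ∧
        s' - ε' ∈ nb π (d : K) (l + 1) := by
      by_cases hy : ε' ∈ nb π (d : K) (l + 1)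
      · refine ⟨ε, 0, hA.base d _, ?_, ?_⟩
        · rw [sub_self]
          exact zero_mem_nbh _ _ _
        · rw [zero_sub]
          exact neg_mem_nbh hy
      · have h1 : A d (g + ε') 0 := hA.base d _
        have h2 := hop g ε' 0 hg.tors hε' (zero_mem_nbh _ _ _) h1 1 0 0 0 1 0
        have h3 : A d (g + 0) ε' := by
          have e1 : (1 : GaussianInt) • g + (0 : GaussianInt) • ε' + (0 : GaussianInt) • (0 : E (d : K))
              = g + 0 := by
            rw [one_smul, zero_smul, zero_smul, add_zero]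
          have e2 : (0 : GaussianInt) • g + (1 : GaussianInt) • ε' + (0 : GaussianInt) • (0 : E (d : K))
              = ε' := by
            rw [one_smul, zero_smul, zero_smul, add_zero, zero_add]
          rw [e1, e2] at h2
          exact h2
        obtain ⟨s, s', h4, h5, h6, h7⟩ := hmove1 0 ε' (zero_mem_nbh _ _ _) l l hl2 hy le_rfl
          (dg r π l ε) h3
        rw [sub_zero] at h5 h6
        exact ⟨s, s', h4, univ_close h hadd hneg hzero h5 hl1 h6, h7⟩
    -- the iteration
    have iter : ∀ j : ℕ, ∃ s s' : E (d : K), A d (g + s) s' ∧ s - ε ∈ nb π (d : K) (l + 1 + j) ∧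
        s' - ε' ∈ nb π (d : K) (l + 1 + j) := by
      intro j
      induction j with
      | zero => exact start
      | succ j ih =>
        obtain ⟨s, s', h1, h2, h3⟩ := ih
        have h2' : s - ε ∈ nb π (d : K) (l + 1) := hanti (by omega) h2
        have h3' : s' - ε' ∈ nb π (d : K) (l + 1) := hanti (by omega) h3
        have h4 : s ∈ nb π (d : K) l := by
          have := h.nb_add hd l (hanti (Nat.le_succ l) h2') hl1
          rwa [sub_add_cancel] at this
        have h5 : s' ∈ nb π (d : K) l := by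
          have := h.nb_add hd l (hanti (Nat.le_succ l) h3') hl2
          rwa [sub_add_cancel] at this
        have h6 : s ∉ nb π (d : K) (l + 1) ∨ s' ∉ nb π (d : K) (l + 1) := by
          rcases hl3 with h7 | h7
          · left
            intro h8
            apply h7
            have := hsub h8 h2'
            rwa [sub_sub_cancel] at this
          · right
            intro h8
            apply h7
            have := hsub h8 h3'
            rwa [sub_sub_cancel] at this
        obtain ⟨t, t', h7, h8, h9, h10, h11⟩ := hmove2 s s' l (l + 1 + j) h4 h5 h6 (by omega)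
          (dg r π (l + 1 + j) (ε - s)) (dg r π (l + 1 + j) (ε' - s')) h1
        refine ⟨t, t', h7, ?_, ?_⟩
        · have h12 : ε - s ∈ nb π (d : K) (l + 1 + j) := by
            have := neg_mem_nbh h2
            rwa [neg_sub] at this
          have h13 := univ_close h hadd hneg hzero h8 h12 h9
          have e : t - s - (ε - s) = t - ε := sub_sub_sub_cancel_right t ε s
          rw [e] at h13
          exact h13
        · have h12 : ε' - s' ∈ nb π (d : K) (l + 1 + j) := by
            have := neg_mem_nbh h3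
            rwa [neg_sub] at this
          have h13 := univ_close h hadd hneg hzero h10 h12 h11
          have e : t' - s' - (ε' - s') = t' - ε' := sub_sub_sub_cancel_right t' ε' s'
          rw [e] at h13
          exact h13
    apply hA.cl d
    intro j
    obtain ⟨s, s', h1, h2, h3⟩ := iter j
    refine ⟨g + s, s', h1, ?_, hanti (by omega) h3⟩
    rw [add_sub_add_left_eq_sub]
    exact hanti (by omega) h2
  obtain ⟨α, hα⟩ := hg.gen P
  obtain ⟨γ, hγ⟩ := hg.gen Q
  have h1 := hop g (P - α • g) (Q - γ • g) hg.tors hα hγ (main _ _ hα hγ) α γ 1 0 0 1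
  have e1 : α • g + (1 : GaussianInt) • (P - α • g) + (0 : GaussianInt) • (Q - γ • g) = P := by
    rw [one_smul, zero_smul, add_zero, add_sub_cancel]
  have e2 : γ • g + (0 : GaussianInt) • (P - α • g) + (1 : GaussianInt) • (Q - γ • g) = Q := by
    rw [one_smul, zero_smul, add_zero, add_sub_cancel]
  rw [e1, e2] at h1
  exact h1

end UnivAux

end GWA
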